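import Pool.Agent.T9h65.LZ.E2
import Pool.Agent.T9h54.FF.Spec3

/-!
# Project FF, piece (E2K2) (helper31): as `E2k.lean`, from any exponent `e < κ + 1/2`
-/

set_option autoImplicit false

namespace Pool.Agent.T9h31.FF

open Finset Filter DirichletCharacter
open Pool.Agent.T9h54.FF Pool.Agent.T9h65.LZ

/-- piece E2K2 -/
theorem e2k2 : S_E2K2 := by
  classical
  intro q _ ρ κ e C hκ hκ1 hek hρk hρ1' hC0
  have hC : ∀ R : ℕ, 1 ≤ R → ∑ r ∈ range R, (nn ρ r : ℝ) ≤ C * (R : ℝ) ^ e := hC0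
  have hρ : 0 < ρ.re := by linarith
  have hρ1 : ρ ≠ 1 := by
    rintro rfl
    simp at hρ1'
  obtain ⟨δ₁, hδ₁e⟩ : ∃ δ₁ : ℝ, e = κ + 1 / 2 - δ₁ := ⟨κ + 1 / 2 - e, by ring⟩
  have hδ₁ : 0 < δ₁ := by linarith
  rw [hδ₁e] at hC
  obtain ⟨δ, hδ⟩ : ∃ δ : ℝ, δ = min (δ₁ / 4) ((κ - 1 / 2) / 2) := ⟨_, rfl⟩
  have hδ0 : 0 < δ := by rw [hδ]; exact lt_min (by linarith) (by linarith)
  have hδ4 : δ ≤ δ₁ / 4 := by rw [hδ]; exact min_le_left _ _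
  have hδ2 : δ ≤ (κ - 1 / 2) / 2 := by rw [hδ]; exact min_le_right _ _
  refine ⟨δ, hδ0, fun K => ?_⟩
  by_contra hcon
  push Not at hcon
  obtain ⟨F, hF⟩ : ∃ F : ℝ, F = Nat.card (DirichletCharacter ℂ q) := ⟨_, rfl⟩
  have hF0 : 0 ≤ F := by rw [hF]; positivity
  obtain ⟨D, hD⟩ : ∃ D : ℝ, D = |C| * (q:ℝ) ^ (κ + 1 / 2 - δ₁) := ⟨_, rfl⟩
  have hq0 : 0 < q := Nat.pos_of_ne_zero (NeZero.ne q)
  have hD0 : 0 ≤ D := by rw [hD]; positivity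
  -- large `n`
  have t1 : Tendsto (fun n : ℕ => ((n:ℝ) / 8) ^ (κ - 1 / 2 - δ)) atTop atTop :=
    (tendsto_rpow_atTop (by linarith)).comp
      (tendsto_natCast_atTop_atTop.atTop_div_const (by norm_num))
  have t2 : Tendsto (fun n : ℕ => (n:ℝ) ^ (δ₁ / 2)) atTop atTop :=
    (tendsto_rpow_atTop (by linarith)).comp tendsto_natCast_atTop_atTop
  have t3 : ∀ᶠ n : ℕ in atTop, Real.log n ≤ (n:ℝ) ^ (δ₁ / 4) := by
    have a1 : (fun x : ℝ => Real.log x) =o[atTop] fun x : ℝ => x ^ (δ₁ / 4) :=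
      isLittleO_log_rpow_atTop (by linarith)
    have a2 := tendsto_natCast_atTop_atTop.eventually
      ((a1.bound (by norm_num : (0:ℝ) < 1)).and (eventually_ge_atTop (1:ℝ)))
    filter_upwards [a2] with n hn
    have := hn.1
    rw [one_mul, Real.norm_of_nonneg (Real.log_nonneg hn.2), Real.norm_of_nonneg (by positivity)] at this
    exact this
  obtain ⟨n, ⟨⟨n1, n2⟩, n3⟩, n4, n5⟩ := ((((PP_large.and (t1.eventually_ge_atTop (2 * F))).and t3).and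
    ((t2.eventually_gt_atTop (64 * D)).and (eventually_ge_atTop (8 * (K + q + 1)))))).exists
  have hn8 : K + q + 1 ≤ n / 8 := by omega
  have hn0 : (0:ℝ) < n := by
    have : 0 < n := by omega
    exact_mod_cast this
  have hn1 : (1:ℝ) ≤ n := by
    have : 1 ≤ n := by omega
    exact_mod_cast this
  -- the lower bound
  have hlow : ∀ P ∈ PP n, ((n:ℝ) / 8) ^ (κ - 1 / 2 - δ) - F ≤ ∑ r ∈ lev q n P, (nn ρ r : ℝ) := by
    intro P hP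
    have hP' := hP
    rw [PP, mem_filter, mem_Ioc] at hP'
    have hPq : ¬ P ∣ q := fun h => by
      have := Nat.le_of_dvd hq0 h
      omega
    obtain ⟨inst, h1⟩ := hcon P hP'.2 (by omega) hPq
    have h2 := card_V q hρ hρ1 P n hP'.2 hP'.1.2
    have h3 : (Set.ncard {χ : DirichletCharacter ℂ (q * P) |
        DirichletCharacter.LFunction χ ρ = 0} : ℝ) ≤ F + ∑ r ∈ lev q n P, (nn ρ r : ℝ) := by
      rw [hF]
      exact_mod_cast h2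
    have h4 : ((n:ℝ) / 8) ^ (κ - 1 / 2 - δ) ≤ (P:ℝ) ^ (κ - 1 / 2 - δ) := by
      refine Real.rpow_le_rpow (by positivity) ?_ (by linarith)
      rw [div_le_iff₀ (by norm_num)]
      have : n ≤ P * 8 := by omega
      exact_mod_cast this
    linarith
  have hsum : (PP n).card * (((n:ℝ) / 8) ^ (κ - 1 / 2 - δ) - F) ≤ D * (n:ℝ) ^ (κ + 1 / 2 - δ₁) := by
    have h1 := card_nsmul_le_sum (PP n) _ _ hlow
    rw [nsmul_eq_mul] at h1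
    have h2 : ∑ P ∈ PP n, ∑ r ∈ lev q n P, (nn ρ r : ℝ) ≤ ∑ r ∈ range (q * n), (nn ρ r : ℝ) := by
      have := sum_lev q ρ n (by omega)
      exact_mod_cast this
    have h3 : ∑ r ∈ range (q * n), (nn ρ r : ℝ) ≤ C * ((q * n : ℕ) : ℝ) ^ (κ + 1 / 2 - δ₁) :=
      hC (q * n) (Nat.mul_pos hq0 (by omega))
    have h4 : C * ((q * n : ℕ) : ℝ) ^ (κ + 1 / 2 - δ₁) ≤ D * (n:ℝ) ^ (κ + 1 / 2 - δ₁) := by
      rw [hD, Nat.cast_mul, Real.mul_rpow (by positivity) (by positivity), ← mul_assoc]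
      refine mul_le_mul_of_nonneg_right ?_ (by positivity)
      exact mul_le_mul_of_nonneg_right (le_abs_self C) (by positivity)
    linarith
  have hhalf : ((n:ℝ) / 8) ^ (κ - 1 / 2 - δ) / 2 ≤ ((n:ℝ) / 8) ^ (κ - 1 / 2 - δ) - F := by
    have : 2 * F ≤ ((n:ℝ) / 8) ^ (κ - 1 / 2 - δ) := n2
    linarith
  have hlog0 : 0 ≤ Real.log n := Real.log_nonneg hn1
  have hmain : (n:ℝ) / 4 * (((n:ℝ) / 8) ^ (κ - 1 / 2 - δ) / 2) ≤ D * (n:ℝ) ^ (κ + 1 / 2 - δ₁) * (n:ℝ) ^ (δ₁ / 4) := by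
    calc (n:ℝ) / 4 * (((n:ℝ) / 8) ^ (κ - 1 / 2 - δ) / 2)
        ≤ ((PP n).card * Real.log n) * (((n:ℝ) / 8) ^ (κ - 1 / 2 - δ) - F) :=
          mul_le_mul n1 hhalf (by positivity) (by positivity)
      _ = ((PP n).card * (((n:ℝ) / 8) ^ (κ - 1 / 2 - δ) - F)) * Real.log n := by ring
      _ ≤ (D * (n:ℝ) ^ (κ + 1 / 2 - δ₁)) * Real.log n := mul_le_mul_of_nonneg_right hsum hlog0
      _ ≤ D * (n:ℝ) ^ (κ + 1 / 2 - δ₁) * (n:ℝ) ^ (δ₁ / 4) :=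
          mul_le_mul_of_nonneg_left n3 (by positivity)
  -- compare the exponents
  have e1 : D * (n:ℝ) ^ (κ + 1 / 2 - δ₁) * (n:ℝ) ^ (δ₁ / 4) = D * (n:ℝ) ^ (κ + 1 / 2 - 3 / 4 * δ₁) := by
    rw [mul_assoc, ← Real.rpow_add hn0]
    congr 2
    ring
  have e2 : (1 / 64 : ℝ) * (n:ℝ) ^ (κ + 1 / 2 - δ) ≤ (n:ℝ) / 4 * (((n:ℝ) / 8) ^ (κ - 1 / 2 - δ) / 2) := by
    rw [Real.div_rpow hn0.le (by norm_num)]
    have a1 : (8:ℝ) ^ (κ - 1 / 2 - δ) ≤ 8 := by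
      calc (8:ℝ) ^ (κ - 1 / 2 - δ) ≤ (8:ℝ) ^ (1:ℝ) :=
            Real.rpow_le_rpow_of_exponent_le (by norm_num) (by linarith)
        _ = 8 := Real.rpow_one _
    have a2 : (0:ℝ) < (8:ℝ) ^ (κ - 1 / 2 - δ) := by positivity
    have a3 : (n:ℝ) ^ (κ + 1 / 2 - δ) = n * (n:ℝ) ^ (κ - 1 / 2 - δ) := by
      rw [← Real.rpow_one_add' hn0.le (by linarith)]
      congr 1
      ring
    rw [a3]
    have a4 : (n:ℝ) ^ (κ - 1 / 2 - δ) / 8 ≤ (n:ℝ) ^ (κ - 1 / 2 - δ) / (8:ℝ) ^ (κ - 1 / 2 - δ) :=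
      div_le_div_of_nonneg_left (by positivity) a2 a1
    calc (1 / 64 : ℝ) * (n * (n:ℝ) ^ (κ - 1 / 2 - δ)) = n / 4 * ((n:ℝ) ^ (κ - 1 / 2 - δ) / 8 / 2) := by ring
      _ ≤ n / 4 * ((n:ℝ) ^ (κ - 1 / 2 - δ) / (8:ℝ) ^ (κ - 1 / 2 - δ) / 2) := by gcongr
  have e3 : (n:ℝ) ^ (δ₁ / 2) * (n:ℝ) ^ (κ + 1 / 2 - 3 / 4 * δ₁) ≤ (n:ℝ) ^ (κ + 1 / 2 - δ) := by
    rw [← Real.rpow_add hn0]
    exact Real.rpow_le_rpow_of_exponent_le hn1 (by linarith)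
  have e4 : 0 < (n:ℝ) ^ (κ + 1 / 2 - 3 / 4 * δ₁) := by positivity
  have e5 : 64 * D * (n:ℝ) ^ (κ + 1 / 2 - 3 / 4 * δ₁) <
      (n:ℝ) ^ (δ₁ / 2) * (n:ℝ) ^ (κ + 1 / 2 - 3 / 4 * δ₁) := mul_lt_mul_of_pos_right n4 e4
  rw [e1] at hmain
  linarith

end Pool.Agent.T9h31.FF
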